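import Mathlib
import Pool.Agent.H8.Split

set_option autoImplicit false

namespace Pool.Agent.Results.MP_dd3545_lc.CH

open Set Filter Topology Function MeasureTheory ProbabilityTheory Pool.Agent.H8.SG
open scoped Cardinal ENNReal

/-- the coin showing `true` with probability `p` -/
noncomputable def coin (p : ℝ≥0∞) : Measure Bool :=
  p • Measure.dirac true + (1 - p) • Measure.dirac false

/-- Lebesgue measure on the Cantor space -/
noncomputable def m : Measure (ℕ → Bool) := Measure.infinitePi fun _ => coin 2⁻¹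

/-- the node `x|n` is a branching point of the tree of `P` -/
def Br (P : Set (ℕ → Bool)) (x : ℕ → Bool) (n : ℕ) : Prop :=
  ∀ b, ∃ y ∈ P, (∀ i < n, y i = x i) ∧ y n = b

/-- the inverse of the canonical homeomorphism `h_P` -/
noncomputable def hinv (P : Set (ℕ → Bool)) (x : ℕ → Bool) : ℕ → Bool :=
  fun i => x (Nat.nth (Br P x) i)

/-- perfectly null -/
def PN (A : Set (ℕ → Bool)) : Prop := ∀ P, Perfect P → P.Nonempty → m (hinv P '' (A ∩ P)) = 0

/-- universally null -/
def UN (A : Set (ℕ → Bool)) : Prop :=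
  ∀ ν : Measure (ℕ → Bool), IsFiniteMeasure ν → (∀ x, ν {x} = 0) → ν A = 0

section
variable {ρ : Measure Bool} [IsProbabilityMeasure ρ]

lemma dep {T : Set (ℕ → Bool)} {n : ℕ} (h : ∀ x ∈ T, ∀ y : ℕ → Bool, (∀ i < n, y i = x i) → y ∈ T)
    (b : Bool) : Measure.infinitePi (fun _ => ρ) (T ∩ {x | x n = b}) =
      Measure.infinitePi (fun _ => ρ) T * ρ {b} := by
  have h1 := ((iIndepFun_infinitePi (P := fun _ : ℕ => ρ) (X := fun _ ω => ω)
    fun _ => measurable_id).indepFun_finset (Finset.range n) {n} (by simp)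
      fun i => measurable_pi_apply i).measure_inter_preimage_eq_mul
    ((fun (a : ℕ → Bool) (i : Finset.range n) => a i) '' T) {z | z ⟨n, by simp⟩ = b}
    (toFinite _).measurableSet (toFinite _).measurableSet
  have h2 : (fun (a : ℕ → Bool) (i : Finset.range n) => a i) ⁻¹'
      ((fun (a : ℕ → Bool) (i : Finset.range n) => a i) '' T) = T := by
    refine (subset_preimage_image _ _).antisymm' ?_
    rintro y ⟨x, hx, e⟩
    exact h x hx y fun i hi => (congrFun e ⟨i, Finset.mem_range.2 hi⟩).symm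
  rw [h2] at h1
  rw [← (measurePreserving_eval_infinitePi (fun _ : ℕ => ρ) n).measure_preimage
    (measurableSet_singleton b).nullMeasurableSet]
  exact h1

lemma nb (hρ : ∀ b, ρ {b} ≤ 2 / 3) (P : Set (ℕ → Bool)) :
    Measure.infinitePi (fun _ => ρ) {x | x ∈ P ∧ ∃ᶠ n in atTop, ¬ Br P x n} = 0 := by
  classical
  set ν := Measure.infinitePi fun _ : ℕ => ρ
  set W := {x | x ∈ P ∧ ∃ᶠ n in atTop, ¬ Br P x n}
  have key : ∀ U, W ⊆ U → IsOpen U → ν W / (2 / 3) ≤ ν U := by
    intro U h1 h2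
    let Q : ℕ → (ℕ → Bool) → Prop := fun n x => (∀ y : ℕ → Bool, (∀ i < n, y i = x i) → y ∈ U) ∧
      ¬ Br P x n
    have hQ : ∀ n x y, (∀ i < n, y i = x i) → Q n x → Q n y := fun n x y e h =>
      ⟨fun z hz => h.1 z fun i hi => (hz i hi).trans (e i hi), fun hb => h.2 fun b =>
        (hb b).imp fun z hz => ⟨hz.1, fun i hi => (hz.2.1 i hi).trans (e i hi), hz.2.2⟩⟩
    let S : ℕ × Bool → Set (ℕ → Bool) := fun p => {x | Q p.1 x ∧ (∀ k < p.1, ¬ Q k x) ∧
      ∃ y ∈ P, (∀ i < p.1, y i = x i) ∧ y p.1 = p.2}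
    have hS : ∀ p, ∀ x ∈ S p, ∀ y : ℕ → Bool, (∀ i < p.1, y i = x i) → y ∈ S p :=
      fun p x hx y e => ⟨hQ _ _ _ e hx.1, fun k hk h => hx.2.1 k hk
        (hQ _ _ _ (fun i hi => (e i (hi.trans hk)).symm) h), hx.2.2.imp fun z hz =>
          ⟨hz.1, fun i hi => (hz.2.1 i hi).trans (e i hi).symm, hz.2.2⟩⟩
    have hd : Pairwise (Disjoint on S) := by
      rintro ⟨n, b⟩ ⟨k, c⟩ hne
      refine disjoint_left.2 fun x h3 h4 => ?_
      rcases lt_trichotomy n k with h | rfl | h
      · exact h4.2.1 n h h3.1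
      · refine h3.1.2 fun d => ?_
        by_cases e : d = b
        · exact e ▸ h3.2.2
        · have : d = c := by
            have : b ≠ c := fun e => hne (by rw [e])
            revert e this; cases b <;> cases c <;> cases d <;> simp
          exact this ▸ h4.2.2
      · exact h3.2.1 k h h4.1
    refine ENNReal.div_le_of_le_mul ?_
    calc ν W ≤ ν (⋃ p, S p ∩ {x | x p.1 = p.2}) := measure_mono fun x hx => by
          have : ∃ n, Q n x := by
            obtain ⟨N, hN⟩ := cyl h2 (h1 hx)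
            obtain ⟨n, h3, h4⟩ := frequently_atTop.1 hx.2 N
            exact ⟨n, fun y hy => hN y fun i hi => hy i (hi.trans_le h3), h4⟩
          exact mem_iUnion.2 ⟨(Nat.find this, x (Nat.find this)), ⟨Nat.find_spec this,
            fun k hk => Nat.find_min this hk, x, hx.1, fun _ _ => rfl, rfl⟩, rfl⟩
      _ ≤ ∑' p, ν (S p) * (2 / 3) := (measure_iUnion_le _).trans (ENNReal.tsum_le_tsum fun p => by
          rw [dep (hS p)]
          exact mul_le_mul_right (hρ _) _)
      _ ≤ ν U * (2 / 3) := by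
          rw [ENNReal.tsum_mul_right, ← measure_iUnion hd fun p =>
            (open_of fun x hx => ⟨p.1, hS p x hx⟩).measurableSet]
          exact mul_le_mul_left (measure_mono (iUnion_subset fun p x hx =>
            hx.1.1 x fun _ _ => rfl)) _
  have h1 : ν W / (2 / 3) ≤ ν W := by
    conv_rhs => rw [measure_eq_iInf_isOpen]
    exact le_iInf fun U => le_iInf fun a => le_iInf fun b => key U a b
  rw [ENNReal.div_le_iff_le_mul (Or.inl (by simp)) (Or.inl (by finiteness))] at h1
  by_contra h0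
  have : (2 / 3 : ℝ≥0∞) < 1 := by
    rw [ENNReal.div_lt_iff (by simp) (by simp)]; norm_num
  exact absurd (ENNReal.mul_lt_mul_right h0 (measure_ne_top ν W) this) (by simpa using h1)

lemma atom (hρ : ∀ b, ρ {b} ≤ 2 / 3) (x : ℕ → Bool) : Measure.infinitePi (fun _ => ρ) {x} = 0 := by
  refine measure_mono_null ?_ (nb hρ {x})
  rintro _ rfl
  refine ⟨rfl, Frequently.of_forall fun n h => ?_⟩
  obtain ⟨_, rfl, -, h⟩ := h _
  exact Bool.not_ne_self _ h.symm

def L (c : ℝ) (k : ℕ) : Set (ℕ → Bool) := {x | Tendsto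
  (fun n : ℕ => (∑ i ∈ Finset.range n, if x (k + i) = true then (1 : ℝ) else 0) / n) atTop (𝓝 c)}

lemma slln (k : ℕ) : ∀ᵐ x ∂Measure.infinitePi (fun _ : ℕ => ρ),
    x ∈ L (∫ b, if b = true then (1 : ℝ) else 0 ∂ρ) k := by
  have mp := measurePreserving_eval_infinitePi fun _ : ℕ => ρ
  have hf : Measurable fun b : Bool => if b = true then (1 : ℝ) else 0 := .of_discrete
  have h := strong_law_ae_real (μ := Measure.infinitePi fun _ : ℕ => ρ)
    (fun i x => if x (k + i) = true then (1 : ℝ) else 0)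
    ((mp _).integrable_comp_of_integrable (g := fun b => if b = true then (1 : ℝ) else 0)
      .of_finite)
    (fun i j hij => (iIndepFun_infinitePi (P := fun _ : ℕ => ρ)
      (X := fun _ b => if b = true then (1 : ℝ) else 0) fun _ => hf).indepFun (by omega))
    fun i => (IdentDistrib.mk (mp (k + i)).measurable.aemeasurable (mp (k + 0)).measurable.aemeasurable
      ((mp _).map_eq.trans (mp _).map_eq.symm)).comp hf
  have e := integral_map (μ := Measure.infinitePi fun _ : ℕ => ρ) (mp (k + 0)).measurable.aemeasurable hf.aestronglyMeasurable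
  rw [(mp (k + 0)).map_eq] at e
  rw [e]
  exact h
end

lemma coin_prob {p : ℝ≥0∞} (h : p ≤ 1) : IsProbabilityMeasure (coin p) :=
  ⟨by simp [coin, add_tsub_cancel_of_le h]⟩

lemma coin_int {p : ℝ≥0∞} (h : p ≤ 1) : ∫ b, if b = true then (1 : ℝ) else 0 ∂coin p = p.toReal := by
  haveI := coin_prob h
  rw [integral_fintype .of_finite]
  simp [coin, Measure.real]

lemma tail {P : Set (ℕ → Bool)} {x : ℕ → Bool} {k : ℕ} (h : ∀ n ≥ k, Br P x n) :
    ∃ b, ∀ j, hinv P x (b + j) = x (k + j) := by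
  classical
  refine ⟨Nat.count (Br P x) k, fun j => ?_⟩
  have : Nat.count (Br P x) k + j = Nat.count (Br P x) (k + j) := by
    induction j with
    | zero => rfl
    | succ j ih => rw [← add_assoc, ← add_assoc, Nat.count_succ, ih, if_pos (h _ (by omega))]
  rw [hinv, this, Nat.nth_count (h _ (by omega))]

theorem result (h : Cardinal.continuum.{0} = Cardinal.aleph 1) : ∃ A, PN A ∧ ¬ UN A := by
  have p1 : (2⁻¹ : ℝ≥0∞) ≤ 1 := by simp
  have p2 : (3⁻¹ : ℝ≥0∞) ≤ 1 := by simp
  haveI := coin_prob p1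
  haveI := coin_prob p2
  have c1 : ∀ b, coin 2⁻¹ {b} ≤ 2 / 3 := fun b => by
    have : (2⁻¹ : ℝ≥0∞) ≤ 2 / 3 := by
      rw [← ENNReal.toReal_le_toReal (by finiteness) (by finiteness)]; norm_num
    cases b <;> simpa [coin] using this
  have c2 : ∀ b, coin 3⁻¹ {b} ≤ 2 / 3 := fun b => by
    rw [← ENNReal.toReal_le_toReal (by finiteness) (by finiteness)]
    cases b <;> simp [coin, ENNReal.toReal_sub_of_le p2] <;> norm_num
  let μ := Measure.infinitePi fun _ : ℕ => coin 3⁻¹
  obtain ⟨r, wo, hseg⟩ := wo_of_CH h {t : Set (ℕ → Bool) // MeasurableSet t ∧ μ t = 0} (by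
    obtain ⟨b, hb, -, h2⟩ := TopologicalSpace.exists_countable_basis (ℕ → Bool)
    have h3 := MeasurableSpace.cardinal_measurableSet_le_continuum (s := b)
      (hb.le_aleph0.trans Cardinal.aleph0_le_continuum)
    rw [← h2.borel_eq_generateFrom, ← BorelSpace.measurable_eq] at h3
    exact (Cardinal.mk_le_mk_of_subset fun t ht => ht.1).trans h3)
  choose x hx using fun a : {t : Set (ℕ → Bool) // MeasurableSet t ∧ μ t = 0} =>
    ((ae_ball_iff ((hseg a).insert a)).2 fun b _ => measure_eq_zero_iff_ae_notMem.1 b.2.2).exists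
  refine ⟨range x, fun P _ _ => ?_, fun H => ?_⟩
  · obtain ⟨t, h1, h2, h3⟩ := exists_measurable_superset_of_null (measure_union_null (nb c2 P)
      (ae_all_iff.2 fun k => slln (ρ := coin 3⁻¹) k))
    haveI : NullSingletonClass m := ⟨atom c1⟩
    refine measure_mono_null ?_ (measure_union_null
      ((((hseg ⟨t, h2, h3⟩).image x).image (hinv P)).measure_zero m)
      (ae_all_iff.2 fun k => slln (ρ := coin 2⁻¹) k))
    rintro _ ⟨_, ⟨⟨a, rfl⟩, h4⟩, rfl⟩
    by_cases ha : r a ⟨t, h2, h3⟩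
    · exact Or.inl ⟨_, ⟨a, ha, rfl⟩, rfl⟩
    have h5 : x a ∉ t := hx a ⟨t, h2, h3⟩ (by
      rcases trichotomous_of r a ⟨t, h2, h3⟩ with h | h | h
      exacts [absurd h ha, Or.inl h.symm, Or.inr h])
    have h6 := mt (@h1 _) h5
    simp only [mem_union, not_or, mem_setOf_eq, mem_compl_iff, not_not, h4, true_and,
      not_frequently, eventually_atTop, coin_int p2] at h6
    obtain ⟨⟨k, h7⟩, h8⟩ := h6
    obtain ⟨b, hb⟩ := tail h7
    refine Or.inr fun h9 => ?_
    have h10 := h9 b
    simp only [L, mem_setOf_eq, hb, coin_int p1] at h10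
    have := tendsto_nhds_unique h10 (h8 k)
    norm_num at this
  · obtain ⟨t, h1, h2, h3⟩ := exists_measurable_superset_of_null (H μ inferInstance (atom c2))
    exact hx ⟨t, h2, h3⟩ _ (mem_insert _ _) (h1 ⟨_, rfl⟩)

end Pool.Agent.Results.MP_dd3545_lc.CH
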